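import Pool.Agent.H15.KM7.Stmts
import Pool.Agent.H32.Dense.Marg

/-!
# Row FIN: the potential at the window `0` is at most the defect of the direction
-/

set_option autoImplicit false

namespace Pool.KM7

open Finset Real
open Pool.Agent.H49.Ent Pool.Agent.H32.Dense Pool.STK Pool.KA

theorem psh_marg {E Ω : Type} [Fintype E] [Fintype Ω] {p' : E → ℝ} {pr : E → Ω} {p : Ω → ℝ}
    (h : Psh p' pr p) : Marg p' p pr := fun ω => h ω

theorem ix_ne_iy (c : Bool) : ix c ≠ iy c := by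
  cases c <;> decide

/-- A vector is determined by its two coordinates. -/
theorem ext_ix_iy {α : Type} (c : Bool) {f g : Fin 2 → α} (h1 : f (ix c) = g (ix c))
    (h2 : f (iy c) = g (iy c)) : f = g := by
  funext i
  cases c
  · fin_cases i
    · exact h1
    · exact h2
  · fin_cases i
    · exact h2
    · exact h1

theorem floor_sub_abs {x y b : ℝ} (h : |x - y| ≤ b) : |((⌊x⌋ - ⌊y⌋ : ℤ) : ℝ)| ≤ b + 1 :=
  (floor_sub_le_pair x y).trans (by linarith)

theorem log_count {n : ℕ} {a b : ℝ} (ha : 0 ≤ a) (hb : 2 * a + 1 + 2 ≤ b) :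
    Real.log (2 * ((2 : ℝ) ^ n + a) + 1) ≤ n * Real.log 2 + Real.log b := by
  have h2 : (1 : ℝ) ≤ 2 ^ n := one_le_pow₀ (by norm_num)
  have hb0 : 0 < b := by linarith
  rw [← Real.log_pow, ← Real.log_mul (by positivity) hb0.ne']
  refine Real.log_le_log (by positivity) ?_
  nlinarith

/-- **Row FIN.** -/
theorem fin_thm : FINStmt := by
  refine ⟨Real.log 5 + Real.log 13, by positivity, ?_⟩
  intro κ hκ J F x hG
  obtain ⟨E, _, p', hp', pr, q, hP, hOk, hx⟩ := hG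
  have hp := hp'.nonneg
  have hM : Marg p' F.p pr := psh_marg hP
  obtain ⟨G, hGd⟩ : ∃ G : Fam 2 0, G = (F.trc 0 (Nat.zero_le J)).ext p' hp' pr := ⟨_, rfl⟩
  -- the label
  obtain ⟨W, hW⟩ : ∃ W : E → ((ℕ × Sec) × ((Fin 2 → ℤ) × (Fin 2 → ℤ))) × F.ζ,
    W = fun e => (Lab ((F.trc 0 (Nat.zero_le J)).ext p' hp' pr) q e, F.Z (pr e)) := ⟨_, rfl⟩
  have hWq : ∀ e e' : E, W e = W e' → q e = q e' ∧
      (q e).lb (F.d (pr e)) = (q e').lb (F.d (pr e')) := by
    intro e e' h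
    rw [hW] at h
    have h1 := (Prod.ext_iff.mp h).1
    have h2 : (((F.T (pr e) / 2 ^ (J - 0), q e), ((q e).lb
        (((F.trc 0 (Nat.zero_le J)).ext p' hp' pr).x e),
        (q e).lb (fun i => F.d (pr e) i / 2 ^ 0)))) =
        ((F.T (pr e') / 2 ^ (J - 0), q e'), ((q e').lb
        (((F.trc 0 (Nat.zero_le J)).ext p' hp' pr).x e'),
        (q e').lb (fun i => F.d (pr e') i / 2 ^ 0))) := h1
    simp only [Prod.mk.injEq, pow_zero, div_one] at h2
    exact ⟨h2.1.2, h2.2.2⟩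
  -- the differences of the coordinates
  have hco : ∀ e e' : E, W e = W e' →
      |(2 : ℝ) ^ (q e').h * F.d (pr e) (iy (q e').c) -
        2 ^ (q e').h * F.d (pr e') (iy (q e').c)| ≤ 1 ∧
      |(2 : ℝ) ^ (q e').h * (2 ^ (q e').p * F.d (pr e) (ix (q e').c) +
          (q e').a * F.d (pr e) (iy (q e').c)) -
        2 ^ (q e').h * (2 ^ (q e').p * F.d (pr e') (ix (q e').c) +
          (q e').a * F.d (pr e') (iy (q e').c))| ≤ 1 := by
    intro e e' h
    obtain ⟨h1, h2⟩ := hWq e e' h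
    rw [h1] at h2
    have h3 := congrFun h2 1
    have h4 := congrFun h2 0
    exact ⟨(Int.abs_sub_lt_one_of_floor_eq_floor h3).le,
      (Int.abs_sub_lt_one_of_floor_eq_floor h4).le⟩
  -- the digits of the slow coordinate
  have k1 : CH p' (fun e => ⌊(2 : ℝ) ^ J * F.d (pr e) (iy (q e).c)⌋) W ≤
      Ex p' (fun e => Real.log (2 * ((2 : ℝ) ^ (J - (q e).h) + 1) + 1)) := by
    refine CH_le_int hp hp'.sum_one _ W _ ?_
    intro e e' he he' h
    obtain ⟨h1, -⟩ := hWq e e' h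
    obtain ⟨h2, -⟩ := hco e e' h
    have hOe := hOk e' he'
    show |((⌊(2 : ℝ) ^ J * F.d (pr e) (iy (q e).c)⌋ -
      ⌊(2 : ℝ) ^ J * F.d (pr e') (iy (q e').c)⌋ : ℤ) : ℝ)| ≤ (2 : ℝ) ^ (J - (q e).h) + 1
    rw [h1]
    refine floor_sub_abs ?_
    have hle : (q e').h ≤ J := (Nat.le_add_right _ _).trans hOe.hi
    have e1 : (2 : ℝ) ^ J = 2 ^ (J - (q e').h) * 2 ^ (q e').h := by
      rw [← pow_add, Nat.sub_add_cancel hle]
    rw [e1, mul_assoc, mul_assoc, ← mul_sub, abs_mul, abs_of_pos (by positivity)]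
    calc (2 : ℝ) ^ (J - (q e').h) * |2 ^ (q e').h * F.d (pr e) (iy (q e').c) -
          2 ^ (q e').h * F.d (pr e') (iy (q e').c)| ≤ 2 ^ (J - (q e').h) * 1 :=
          mul_le_mul_of_nonneg_left h2 (by positivity)
      _ = 2 ^ (J - (q e').h) := mul_one _
  -- the digits of the fast coordinate
  have k2 : CH p' (fun e => ⌊(2 : ℝ) ^ J * F.d (pr e) (ix (q e).c)⌋)
      (fun e => (⌊(2 : ℝ) ^ J * F.d (pr e) (iy (q e).c)⌋, W e)) ≤
      Ex p' (fun e => Real.log (2 * ((2 : ℝ) ^ (J - ((q e).h + (q e).p)) + 5) + 1)) := by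
    refine CH_le_int hp hp'.sum_one _ _ _ ?_
    intro e e' he he' h
    obtain ⟨h0, hw⟩ := Prod.ext_iff.mp h
    simp only at h0 hw
    obtain ⟨h1, -⟩ := hWq e e' hw
    obtain ⟨-, h2⟩ := hco e e' hw
    have hOe := hOk e' he'
    show |((⌊(2 : ℝ) ^ J * F.d (pr e) (ix (q e).c)⌋ -
      ⌊(2 : ℝ) ^ J * F.d (pr e') (ix (q e').c)⌋ : ℤ) : ℝ)| ≤
      (2 : ℝ) ^ (J - ((q e).h + (q e).p)) + 5
    rw [h1] at h0 ⊢
    have h3 := Int.abs_sub_lt_one_of_floor_eq_floor h0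
    have h4 : |(2 : ℝ) ^ J * F.d (pr e) (ix (q e').c) - 2 ^ J * F.d (pr e') (ix (q e').c)| ≤
        2 ^ (J - ((q e').h + (q e').p)) + 4 := by
      obtain ⟨f, hf⟩ : ∃ f, f = F.d (pr e) (ix (q e').c) := ⟨_, rfl⟩
      obtain ⟨f', hf'⟩ : ∃ f, f = F.d (pr e') (ix (q e').c) := ⟨_, rfl⟩
      obtain ⟨s, hs⟩ : ∃ f, f = F.d (pr e) (iy (q e').c) := ⟨_, rfl⟩
      obtain ⟨s', hs'⟩ : ∃ f, f = F.d (pr e') (iy (q e').c) := ⟨_, rfl⟩
      rw [← hf, ← hf', ← hs, ← hs'] at h2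
      rw [← hs, ← hs'] at h3
      rw [← hf, ← hf']
      have hsl : |((q e').a : ℝ)| ≤ 4 * 2 ^ (q e').p := by
        have := hOe.sl
        exact_mod_cast this
      have e1 : (2 : ℝ) ^ J = 2 ^ (J - ((q e').h + (q e').p)) * (2 ^ (q e').h * 2 ^ (q e').p) := by
        rw [← pow_add, ← pow_add, Nat.sub_add_cancel hOe.hi]
      have e2 : (2 : ℝ) ^ J * f - 2 ^ J * f' = 2 ^ (J - ((q e').h + (q e').p)) *
          (2 ^ (q e').h * (2 ^ (q e').p * f + (q e').a * s) -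
            2 ^ (q e').h * (2 ^ (q e').p * f' + (q e').a * s')) -
          ((q e').a : ℝ) / 2 ^ (q e').p * (2 ^ J * s - 2 ^ J * s') := by
        rw [e1]
        field_simp
        ring
      have e3 : |(2 : ℝ) ^ (J - ((q e').h + (q e').p)) *
          (2 ^ (q e').h * (2 ^ (q e').p * f + (q e').a * s) -
            2 ^ (q e').h * (2 ^ (q e').p * f' + (q e').a * s'))| ≤
          2 ^ (J - ((q e').h + (q e').p)) := by
        rw [abs_mul, abs_of_pos (by positivity : (0 : ℝ) < 2 ^ (J - ((q e').h + (q e').p)))]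
        calc _ ≤ (2 : ℝ) ^ (J - ((q e').h + (q e').p)) * 1 :=
              mul_le_mul_of_nonneg_left h2 (by positivity)
          _ = _ := mul_one _
      have e4 : |((q e').a : ℝ) / 2 ^ (q e').p * (2 ^ J * s - 2 ^ J * s')| ≤ 4 := by
        rw [abs_mul, abs_div, abs_of_pos (by positivity : (0 : ℝ) < 2 ^ (q e').p)]
        have h5 : |((q e').a : ℝ)| / 2 ^ (q e').p ≤ 4 := by
          rw [div_le_iff₀ (by positivity)]
          exact hsl
        calc |((q e').a : ℝ)| / 2 ^ (q e').p * |2 ^ J * s - 2 ^ J * s'| ≤ 4 * 1 :=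
              mul_le_mul h5 h3.le (abs_nonneg _) (by norm_num)
          _ = 4 := by norm_num
      rw [e2]
      exact (abs_sub _ _).trans (add_le_add e3 e4)
    have h5 := floor_sub_abs h4
    linarith
  -- the entropy of the direction
  have k3 : CH p' (fun e => F.D J (pr e)) (fun e => F.Z (pr e)) = CH F.p (F.D J) F.Z :=
    hM.CH (F.D J) F.Z
  have k4 := CH_le_add hp (fun e => F.D J (pr e))
    (Lab ((F.trc 0 (Nat.zero_le J)).ext p' hp' pr) q) (fun e => F.Z (pr e))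
  have k5 : CH p' (fun e => F.D J (pr e))
      (fun e => (Lab ((F.trc 0 (Nat.zero_le J)).ext p' hp' pr) q e, F.Z (pr e))) ≤
      CH p' (fun e => (⌊(2 : ℝ) ^ J * F.d (pr e) (ix (q e).c)⌋,
        ⌊(2 : ℝ) ^ J * F.d (pr e) (iy (q e).c)⌋)) W := by
    rw [hW]
    refine CH_mono_left hp fun e e' _ _ h => ?_
    obtain ⟨h1, h2⟩ := Prod.ext_iff.mp h
    have hw : W e = W e' := by rw [hW]; exact h2
    obtain ⟨h3, -⟩ := hWq e e' hw
    simp only [Prod.mk.injEq] at h1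
    rw [h3] at h1
    exact ext_ix_iy (q e').c h1.1 h1.2
  rw [CH_chain hp (fun e => ⌊(2 : ℝ) ^ J * F.d (pr e) (ix (q e).c)⌋)
    (fun e => ⌊(2 : ℝ) ^ J * F.d (pr e) (iy (q e).c)⌋) W] at k5
  have k6 : Ex p' (fun e => Real.log (2 * ((2 : ℝ) ^ (J - (q e).h) + 1) + 1)) +
      Ex p' (fun e => Real.log (2 * ((2 : ℝ) ^ (J - ((q e).h + (q e).p)) + 5) + 1)) +
      Ex p' (fun e => (2 * ((q e).h : ℝ) + (1 - κ) * (q e).p) * Real.log 2) ≤
      2 * (J * Real.log 2) + (Real.log 5 + Real.log 13) := by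
    rw [← Ex_add, ← Ex_add, ← Ex_const hp'.sum_one (2 * (J * Real.log 2) +
      (Real.log 5 + Real.log 13))]
    refine Ex_mono hp fun e he => ?_
    have hOe := hOk e he
    have hle : (q e).h ≤ J := (Nat.le_add_right _ _).trans hOe.hi
    have h1 := log_count (n := J - (q e).h) (a := 1) (b := 5) (by norm_num) (by norm_num)
    have h2 := log_count (n := J - ((q e).h + (q e).p)) (a := 5) (b := 13) (by norm_num)
      (by norm_num)
    have e1 : ((J - (q e).h : ℕ) : ℝ) = J - (q e).h := by rw [Nat.cast_sub hle]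
    have e2 : ((J - ((q e).h + (q e).p) : ℕ) : ℝ) = J - ((q e).h + (q e).p) := by
      rw [Nat.cast_sub hOe.hi]
      push_cast
      ring
    rw [e1] at h1
    rw [e2] at h2
    have h3 : 0 ≤ κ * (q e).p * Real.log 2 := by
      have := Real.log_nonneg (by norm_num : (1 : ℝ) ≤ 2)
      positivity
    linarith
  have k7 : Psi κ ((F.trc 0 (Nat.zero_le J)).ext p' hp' pr) q =
      Ex p' (fun e => (2 * ((q e).h : ℝ) + (1 - κ) * (q e).p) * Real.log 2) -
      CH p' (Lab ((F.trc 0 (Nat.zero_le J)).ext p' hp' pr) q) (fun e => F.Z (pr e)) := by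
    unfold Psi
    have e0 : ((0 : ℕ) : ℝ) * Real.log 2 = 0 := by simp
    rw [e0, zero_add]
    rfl
  rw [k7] at hx
  linarith

end Pool.KM7
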